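import Pool.Agent.Work.MP_ae9baf_co.Cyc.Main

namespace Pool.Agent.Results.MP_ae9baf_co.CycleFree

/-- For `s ≥ 2`, a graph with no cycle of length `s + 2` as a subgraph, other than the complete
graph on `s + 1` vertices, has chromatic discrepancy at least `χ(G) - s`. -/
theorem result (V : Type) [Fintype V] [Nonempty V] (G : SimpleGraph V) (s : ℕ) (hs : 2 ≤ s)
    (hfree : (SimpleGraph.cycleGraph (s + 2)).Free G)
    (hK : IsEmpty (G ≃g SimpleGraph.completeGraph (Fin (s + 1))))
    (C : Type) (σ : G.Coloring C) :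
    ∃ H : Set V, H.Nonempty ∧ (G.chromaticNumber.toNat : ℤ) - s ≤
      ((σ '' H).ncard : ℤ) - ((G.induce H).chromaticNumber.toNat : ℤ) :=
  Pool.Agent.Work.MP_ae9baf_co.Cyc.thmC (l := s + 1)
    (Pool.Agent.Work.MP_ae9baf_co.Cyc.noCyc_of_free hfree) (by omega) hK σ fun _ _ h => σ.valid h

end Pool.Agent.Results.MP_ae9baf_co.CycleFree
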