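import Pool.Agent.Work.MP_ae9baf_co.Frac.Main

namespace Pool.Agent.Results.MP_ae9baf_co.FracBound

/-- For `s ≥ 3` and every `r` with `H_{r+1} < r + 2 - s`, every locally `s`-colourable graph has
chromatic discrepancy greater than `χ_f(G) - r`. -/
theorem result (V : Type) [Fintype V] [Nonempty V] (G : SimpleGraph V) (s r : ℕ) (hs : 3 ≤ s)
    (hr : harmonic (r + 1) < (r : ℚ) + 2 - s)
    (hloc : ∀ v, (G.induce (insert v (G.neighborSet v))).chromaticNumber ≤ s)
    (C : Type) (σ : G.Coloring C) :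
    ∃ H : Set V, H.Nonempty ∧ Pool.Agent.Work.MP_ae9baf_co.Frac.fracChrom G - r <
      ((σ '' H).ncard : ℝ) - ((G.induce H).chromaticNumber.toNat : ℝ) :=
  Pool.Agent.Work.MP_ae9baf_co.Frac.thmF hs hr
    (fun v => SimpleGraph.chromaticNumber_le_iff_colorable.1 (hloc v)) σ (fun _ _ h => σ.valid h)

end Pool.Agent.Results.MP_ae9baf_co.FracBound
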