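import Pool.Agent.Work.MP_ae9baf_co.Main

namespace Pool.Agent.Results.MP_ae9baf_co.LinearBound

/-- For `s ≥ 3`, every locally `s`-colourable graph has chromatic discrepancy at least
`χ(G) - 2s + 3`; for `s = 3` this is the conjectured bound `χ(G) - s`. -/
theorem result (V : Type) [Fintype V] [Nonempty V] (G : SimpleGraph V) (s : ℕ) (hs : 3 ≤ s)
    (hloc : ∀ v, (G.induce (insert v (G.neighborSet v))).chromaticNumber ≤ s)
    (C : Type) (σ : G.Coloring C) :
    ∃ H : Set V, H.Nonempty ∧ (G.chromaticNumber.toNat : ℤ) - 2 * s + 3 ≤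
      ((σ '' H).ncard : ℤ) - ((G.induce H).chromaticNumber.toNat : ℤ) :=
  Pool.Agent.Work.MP_ae9baf_co.main hs
    (fun v => SimpleGraph.chromaticNumber_le_iff_colorable.1 (hloc v)) σ (fun _ _ h => σ.valid h)

end Pool.Agent.Results.MP_ae9baf_co.LinearBound
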