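import Pool.Agent.Work.MP_ae9baf_co.NearOpt

namespace Pool.Agent.Results.MP_ae9baf_co.NearOptimal

/-- Every locally `s`-colourable graph has chromatic discrepancy at least
`χ - s - 728 (√(s log χ) + log χ · log log χ)`. -/
theorem result (V : Type) [Fintype V] [Nonempty V] (G : SimpleGraph V) (s : ℕ) (hs : 2 ≤ s)
    (hloc : ∀ v, (G.induce (insert v (G.neighborSet v))).chromaticNumber ≤ s)
    (C : Type) (σ : G.Coloring C) :
    ∃ H : Set V, H.Nonempty ∧ (G.chromaticNumber.toNat : ℝ) - s -
        728 * (√(s * Real.log G.chromaticNumber.toNat) +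
          Real.log G.chromaticNumber.toNat * Real.log (Real.log G.chromaticNumber.toNat)) ≤
      ((σ '' H).ncard : ℝ) - ((G.induce H).chromaticNumber.toNat : ℝ) :=
  Pool.Agent.Work.MP_ae9baf_co.near_opt hs
    (fun v => SimpleGraph.chromaticNumber_le_iff_colorable.1 (hloc v)) σ (fun _ _ h => σ.valid h)

end Pool.Agent.Results.MP_ae9baf_co.NearOptimal
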